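import Mathlib
import Pool.Agent.Lib.MP_3c3661_al.Final3
import Pool.Agent.Lib.MP_3c3661_al.NT3

/-!
Cyclic composition factors of `k`-rational groups: a bound in terms of `k` and of the `p`-structure
of any local subgroup.
-/

set_option autoImplicit false

namespace Pool.Agent.Results.MP_3c3661_al.LocalPairs

open Pool.Agent.Lib.MP_3c3661_al

/-- Let `G` be a finite `k`-rational group, `N` a normal subgroup, `M` an elementary abelian normal
`p`-subgroup of `G / N` and `(L, D)` a local pair (for instance `L = ⟨h⟩`, `D = C(h)` for an element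
`h` of order prime to `p` with `C_M(h) ≠ 1`, such as `h = 1`). Let `C_M(L)` be the direct product of
a set `𝓧` of subgroups permuted by `D`, let `P` be a Sylow `p`-subgroup of `D` and `A` a subgroup of
`D` with `|P : P ∩ A| ≤ p ^ e`, such that `[X, N_A(X), ..., N_A(X)] = 1` (`c` times) for all `X` in
`𝓧`. Then `p` is bounded in terms of `k`, `c` and `e`. -/
theorem result (k e c : ℕ) (hk : 0 < k) (G : Type) [Group G] [Finite G] (hG : KRational k G)
    (p : ℕ) (hp : p.Prime) (N : Subgroup G) [N.Normal] (M : Subgroup (G ⧸ N)) [M.Normal]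
    (hcomm : ∀ a ∈ M, ∀ b ∈ M, a * b = b * a) (hexp : ∀ a ∈ M, a ^ p = 1)
    (L D : Subgroup (G ⧸ N)) (hLD : LocalPair p M L D)
    (𝓧 : Set (Subgroup (G ⧸ N))) (hind : sSupIndep 𝓧)
    (hsup : sSup 𝓧 = M ⊓ Subgroup.centralizer (L : Set (G ⧸ N)))
    (hX : ∀ g ∈ D, ∀ X ∈ 𝓧, X.map (MulAut.conj g).toMonoidHom ∈ 𝓧)
    (P : Sylow p D) (A : Subgroup (G ⧸ N)) (_hA : A ≤ D)
    (hAe : (A.subgroupOf D).relIndex (P : Subgroup D) ≤ p ^ e)
    (hc : ∀ X ∈ 𝓧, (fun Y : Subgroup (G ⧸ N) => ⁅Y, normIn A X⁆)^[c] X = ⊥) :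
    p ^ (2 * powUnits k p) ≤ 2 ^ (125 * k * c * powUnits k p) * p ^ (2 * c * (e + 2)) ∧
      p ≤ k * 2 ^ (63 * k * c * (e + 2)) + 1 := by
  have : Fact p.Prime := ⟨hp⟩
  have h := main3 hk hG N M hcomm hexp L D hLD 𝓧 hind hsup hX P A hAe hc
  exact ⟨h, explicit_bound hp hk (Nat.le_add_left 2 e) h⟩

end Pool.Agent.Results.MP_3c3661_al.LocalPairs
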