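import Mathlib
import Pool.Agent.Lib.MP_3c3661_al.Final4
import Pool.Agent.Lib.MP_3c3661_al.NT3

/-!
Cyclic composition factors of `k`-rational groups: a bound in terms of `k` and of the action of
`p`-elements on a maximal `2`-subgroup with fixed points.
-/

set_option autoImplicit false

namespace Pool.Agent.Results.MP_3c3661_al.TwoLocal

open Pool.Agent.Lib.MP_3c3661_al

/-- Let `-1` be a `k`-th power modulo the prime `p` (for instance `k` odd), let `G` be a finite
`k`-rational group, `N` a normal subgroup and `M` an elementary abelian normal `p`-subgroup of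
`G / N`. Let `h` be an element of `G / N` and `R` a maximal one among the `2`-subgroups with
`h ∈ R ≤ C(h)` and `C_M(R) ≠ 1` (for instance `h = 1`). Put `D = N_{C(h)}(R)` and `W = C_M(R)`, and
suppose that either the `p`-elements of the subgroup generated by the products of two elements of
`D` of order `2` modulo `R` centralise `R` (for instance `p` does not divide `|D : R C(R)|`), or
that `W` has a complement in `D` (for instance `M` has a complement in `G / N`). Let `P` be a Sylow
`p`-subgroup of `D` and `|P : C_P(R) C_P(W)| ≤ p ^ e`. Then `p` is bounded in terms of `k` and `e`.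
In particular, if all `p`-elements of `N_{C(h)}(R)` centralise `R` then
`p ≤ k * 2 ^ (126 * k) + 1`. -/
theorem result (k e : ℕ) (hk : 0 < k) (G : Type) [Group G] [Finite G] (hG : KRational k G)
    (p : ℕ) (hp : p.Prime) (hu : ∃ u : ZMod p, u ^ k = -1)
    (N : Subgroup G) [N.Normal] (M : Subgroup (G ⧸ N)) [M.Normal]
    (hcomm : ∀ a ∈ M, ∀ b ∈ M, a * b = b * a) (hexp : ∀ a ∈ M, a ^ p = 1)
    (h : G ⧸ N) (R D W : Subgroup (G ⧸ N)) (hR : MaxTwo M h R)
    (hD : D = Subgroup.centralizer {h} ⊓ Subgroup.normalizer (R : Set (G ⧸ N)))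
    (hW : W = M ⊓ Subgroup.centralizer (R : Set (G ⧸ N)))
    (hJ : (∀ x ∈ twoProds D R, (∃ i, orderOf x = p ^ i) →
      x ∈ Subgroup.centralizer (R : Set (G ⧸ N))) ∨
      ∃ D₀ ≤ D, W ⊓ D₀ = ⊥ ∧ D ≤ W ⊔ D₀)
    (P : Sylow p D)
    (hPe : ((((P : Subgroup D).map D.subtype ⊓ Subgroup.centralizer (R : Set (G ⧸ N))) ⊔
      ((P : Subgroup D).map D.subtype ⊓ Subgroup.centralizer (W : Set (G ⧸ N)))).subgroupOf
        D).relIndex (P : Subgroup D) ≤ p ^ e) :
    p ^ (2 * powUnits k p) ≤ 2 ^ (125 * k * powUnits k p) * p ^ (2 * (e + 2)) ∧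
      p ≤ k * 2 ^ (63 * k * (e + 2)) + 1 := by
  have : Fact p.Prime := ⟨hp⟩
  have h1 : p ^ (2 * powUnits k p) ≤ 2 ^ (125 * k * powUnits k p) * p ^ (2 * (e + 2)) := by
    by_cases hp2 : p = 2
    · subst hp2
      calc 2 ^ (2 * powUnits k 2) ≤ 2 ^ (125 * k * powUnits k 2) := by
            apply Nat.pow_le_pow_right (by norm_num)
            apply Nat.mul_le_mul_right
            omega
        _ = 2 ^ (125 * k * powUnits k 2) * 1 := (mul_one _).symm
        _ ≤ _ := Nat.mul_le_mul_left _ (Nat.one_le_pow _ _ (by norm_num))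
    · exact main4 hk hG hp2 hu N M hcomm hexp h R D W hR hD hW hJ P hPe
  refine ⟨h1, ?_⟩
  have h2 := explicit_bound (c := 1) hp hk (Nat.le_add_left 2 e) (by simpa only [mul_one] using h1)
  simpa only [mul_one] using h2

end Pool.Agent.Results.MP_3c3661_al.TwoLocal
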